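import Pool.Agent.D0H78.SS.Crit

/-!
# Symmetries and stable subspaces
-/

open CategoryTheory AlgebraicGeometry TensorProduct

universe u v

namespace Pool.Agent.D0H78.SS

open Module
open Pool.Agent.H914 Pool.Agent.H914.VarClass Pool.Agent.H914.VarClass.Obj
  Pool.Agent.H914.WeilCohomology Pool.Agent.Y133.Half Pool.Agent.D0H78.QT
open Pool.Agent.D0H78.MT (IsProj ext gl isProj_left isProj_right algHom_ext_pw)

variable {k : Type u} [Field k] {𝒱 : VarClass k} {ops : CycleOps 𝒱}

section

variable {W : WeilCohomology.{u, v} ops} {X : 𝒱.Obj} {n m : ℕ}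

lemma ct_ap (a : W.H (pw X n)) (r : ℕ) (l : Fin r → W.H (pw X m) →ₗ[W.K] W.K)
    (u : Fin r → W.H (pw X m)) : ct W r l (ap a r u) =
      (∑ σ : Equiv.Perm (Fin r), Equiv.Perm.sign σ • ∏ i, l i (u (σ i))) • a := by
  rw [ap_apply, map_sum, Finset.sum_smul]
  refine Finset.sum_congr rfl fun σ _ => ?_
  rw [Units.smul_def, map_zsmul, ct_ep, smul_assoc]
  rfl

/-- If the antisymmetrised products of the elements of a basis of `U` and of their images are
proportional, `U` is stable. -/
lemma mem_of_ap {r : ℕ} {U : Submodule W.K (W.H (pw X m))} (e : Basis (Fin r) W.K U)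
    {f : W.H (pw X m) →ₗ[W.K] W.H (pw X m)} (hf : Function.Injective f) {x x' : W.H (pw X n)}
    (hx' : x' ≠ 0) {c : W.K}
    (h : ap x' r (fun i => f (e i : W.H (pw X m))) = c • ap x r (fun i => (e i : W.H (pw X m))))
    {y : W.H (pw X m)} (hy : y ∈ U) : f y ∈ U := by
  classical
  have key : ∀ l, f (e l : W.H (pw X m)) ∈ U := by
    intro l₀
    by_contra hl₀
    obtain ⟨φ, hφ, hφU⟩ := Submodule.exists_dual_map_eq_bot_of_notMem hl₀ inferInstance
    have hφ0 : ∀ z ∈ U, φ z = 0 := fun z hz => by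
      have h1 : φ z ∈ U.map φ := Submodule.mem_map_of_mem hz
      rw [hφU] at h1
      exact (Submodule.mem_bot _).1 h1
    let e' := e.map (Submodule.equivMapOfInjective f hf U)
    have he' : ∀ i, (e' i : W.H (pw X m)) = f (e i : W.H (pw X m)) := fun i => rfl
    have hl : ∀ i, ∃ l : W.H (pw X m) →ₗ[W.K] W.K, l ∘ₗ (U.map f).subtype = e'.coord i :=
      fun i => LinearMap.exists_extend _
    choose l hl using hl
    have hl' : ∀ i j, l i (f (e j : W.H (pw X m))) = if j = i then 1 else 0 := by
      intro i j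
      have h1 := congrArg (fun g => g (e' j)) (hl i)
      have h2 : l i (e' j : W.H (pw X m)) = e'.coord i (e' j) := h1
      rw [← he', h2, Basis.coord_apply, Basis.repr_self, Finsupp.single_apply]
    let L : Fin r → W.H (pw X m) →ₗ[W.K] W.K := fun i => if i = l₀ then φ else l i
    have h1 := congrArg (ct W r L) h
    rw [map_smul, ct_ap, ct_ap] at h1
    have h2 : (∑ σ : Equiv.Perm (Fin r), Equiv.Perm.sign σ •
        ∏ i, L i ((e (σ i) : W.H (pw X m)))) = 0 := by
      refine Finset.sum_eq_zero fun σ _ => ?_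
      rw [Finset.prod_eq_zero (Finset.mem_univ l₀) (by
        change (if l₀ = l₀ then φ else l l₀) _ = 0
        rw [if_pos rfl]
        exact hφ0 _ (e _).2), smul_zero]
    have h3 : (∑ σ : Equiv.Perm (Fin r), Equiv.Perm.sign σ •
        ∏ i, L i (f (e (σ i) : W.H (pw X m)))) = φ (f (e l₀ : W.H (pw X m))) := by
      rw [Finset.sum_eq_single 1]
      · rw [Equiv.Perm.sign_one, one_smul, ← Finset.mul_prod_erase Finset.univ _
          (Finset.mem_univ l₀), Finset.prod_eq_one, mul_one]
        · change (if l₀ = l₀ then φ else l l₀) _ = _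
          rw [if_pos rfl]
          rfl
        · intro i hi
          have hi' : i ≠ l₀ := (Finset.mem_erase.1 hi).1
          change (if i = l₀ then φ else l i) _ = 1
          rw [if_neg hi']
          change l i (f (e i : W.H (pw X m))) = 1
          rw [hl', if_pos rfl]
      · intro σ _ hσ
        obtain ⟨i, hi, hi'⟩ : ∃ i, i ≠ l₀ ∧ σ i ≠ i := by
          by_contra hc
          push Not at hc
          apply hσ
          apply Equiv.ext
          intro i
          by_cases hi : i = l₀
          · subst hi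
            by_contra h'
            have h4 := hc (σ i) h'
            exact h' (σ.injective h4)
          · exact hc i hi
        rw [Finset.prod_eq_zero (Finset.mem_univ i) (by
          change (if i = l₀ then φ else l i) _ = 0
          rw [if_neg hi, hl', if_neg hi']), smul_zero]
      · intro h'
        exact absurd (Finset.mem_univ _) h'
    rw [h2, h3, zero_smul, smul_zero] at h1
    exact (smul_ne_zero hφ hx') h1
  have h1 : ((∑ i, e.repr ⟨y, hy⟩ i • e i : U) : W.H (pw X m)) = y := by rw [e.sum_repr]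
  rw [Submodule.coe_sum] at h1
  rw [← h1, map_sum]
  refine Submodule.sum_mem _ fun i _ => ?_
  rw [Submodule.coe_smul, map_smul]
  exact Submodule.smul_mem _ _ (key i)

/-- A compatible family of homomorphisms. -/
structure Fam (W : WeilCohomology.{u, v} ops) (X : 𝒱.Obj) where
  /-- the homomorphisms -/
  f : ∀ n, W.H (pw X n) →ₐ[W.K] W.H (pw X n)
  proj : ∀ n p, IsProj X n p → ∀ x, f n (W.map p x) = W.map p (f 0 x)

namespace Fam

variable (F : Fam W X)

/-- Morphisms between powers given by projections are equivariant. -/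
lemma equiv {m n : ℕ} (p : pw X n ⟶ pw X m)
    (hp : ∀ q, IsProj X m q → IsProj X n (p ≫ q)) (a : W.H (pw X m)) :
    F.f n (W.map p a) = W.map p (F.f m a) := by
  have h1 : (F.f n).comp (W.map p) = (W.map p).comp (F.f m) := by
    apply algHom_ext_pw
    intro q hq a
    have e1 : F.f m (W.map q a) = W.map q (F.f 0 a) := F.proj m q hq a
    have e2 : F.f n (W.map (p ≫ q) a) = W.map (p ≫ q) (F.f 0 a) := F.proj n _ (hp q hq) a
    change F.f n (W.map p (W.map q a)) = W.map p (F.f m (W.map q a))
    rw [e1, ← W.map_comp, e2, W.map_comp]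
  exact congrArg (fun f => f a) h1

lemma f_gl {m n : ℕ} (x : W.H (pw X m)) (y : W.H (pw X n)) :
    F.f (m + n + 1) (gl W x y) = gl W (F.f m x) (F.f n y) := by
  have e1 : ∀ (x : W.H (pw X m)) (y : W.H (pw X n)), gl W x y =
      W.map ((pwAdd X m n).inv ≫ fst _ _) x * W.map ((pwAdd X m n).inv ≫ snd _ _) y := by
    intro x y
    rw [gl, xp, map_mul (W.map (pwAdd X m n).inv), ← W.map_comp, ← W.map_comp]
  rw [e1, e1, map_mul (F.f (m + n + 1)), F.equiv, F.equiv]
  · intro q hq
    rw [Category.assoc]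
    exact isProj_right m n hq
  · intro q hq
    rw [Category.assoc]
    exact isProj_left m hq n

lemma f_ep {n m : ℕ} (a : W.H (pw X n)) : ∀ (r : ℕ) (u : Fin r → W.H (pw X m)),
    F.f (ix n m r) (ep W a r u) = ep W (F.f n a) r (fun i => F.f m (u i))
  | 0, u => rfl
  | r + 1, u => by
    rw [ep_succ, ep_succ]
    refine (F.f_gl _ _).trans ?_
    rw [f_ep a r]
    rfl

lemma f_ap {n m : ℕ} (a : W.H (pw X n)) (r : ℕ) (u : Fin r → W.H (pw X m)) :
    F.f (ix n m r) (ap a r u) = ap (F.f n a) r (fun i => F.f m (u i)) := by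
  rw [ap_apply, ap_apply, map_sum]
  refine Finset.sum_congr rfl fun σ _ => ?_
  rw [Units.smul_def, map_zsmul, f_ep]
  rfl

end Fam

end

variable {W : WeilCohomology.{u, 0} ops} {Q : ClassPred W} {X : 𝒱.Obj} {G : GaloisAction Q X}

/-- **Stable subspaces are stable under the symmetries** if the Tate classes are multiplied by
constants. -/
theorem sym_stable (F : Fam G.V X) (hF : ∀ n, Function.Injective (F.f n)) {c : G.V.K}
    (hT : ∀ n j x, G.IsTate n j x → F.f n x = c ^ j • x) {m i : ℕ}
    {U : Submodule G.V.K (G.V.H (pw X m))}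
    (hU : IsSub G m i U) {n d j : ℕ} {x : G.V.H (pw X n)} (hx0 : x ≠ 0)
    (hx : x ∈ G.V.gr (pw X n) d) (hd : i * finrank G.V.K U + d = 2 * j) {Δ : Subgroup G.Γ}
    (hΔ : Δ.FiniteIndex)
    (h : ∀ g ∈ Δ, LinearMap.det (res hU g) • G.ρ n g x = (G.χ g : G.V.K) ^ j • x)
    {y : G.V.H (pw X m)} (hy : y ∈ U) : F.f m y ∈ U := by
  obtain ⟨r, hr⟩ : ∃ r, finrank G.V.K U = r := ⟨_, rfl⟩
  let e : Basis (Fin r) G.V.K U := (finBasis G.V.K U).reindex (finCongr hr)
  rw [hr] at hd
  have hω : G.IsTate (ix n m r) j (ap x r (fun l => (e l : G.V.H (pw X m)))) :=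
    isTate_ap hU hx e hd hΔ h
  have h1 := hT _ _ _ hω
  rw [F.f_ap] at h1
  exact mem_of_ap e (f := (F.f m).toLinearMap) (hF m) (x' := F.f n x)
    (fun h0 => hx0 (hF n (h0.trans (map_zero _).symm))) h1 hy

end Pool.Agent.D0H78.SS
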