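import Pool.Agent.D0H78.SS.Uni
import Pool.Agent.D0H78.SS.Sym
import Pool.Agent.D0H78.QT.Final

/-!
# Restriction of the action to subgroups of finite index
-/

open CategoryTheory AlgebraicGeometry TensorProduct Filter Topology

open scoped ENNReal

universe u v

namespace Pool.Agent.D0H78.SS

open Module
open Pool.Agent.H914 Pool.Agent.H914.VarClass Pool.Agent.H914.VarClass.Obj
  Pool.Agent.H914.WeilCohomology Pool.Agent.Y133.Half Pool.Agent.D0H78.QT
  Pool.Agent.Y121.AH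
open Pool.Agent.D0H78.MT (ext)

variable {k : Type u} [Field k] {𝒱 : VarClass k} {ops : CycleOps 𝒱}
  {W : WeilCohomology.{u, 0} ops} {Q : ClassPred W} {X : 𝒱.Obj}

/-- The restriction of the action to a subgroup. -/
noncomputable def resG (G : GaloisAction Q X) (Δ : Subgroup G.Γ) : GaloisAction Q X where
  L := G.L
  field := G.field
  alg := G.alg
  emb := G.emb
  Γ := Δ
  group := inferInstance
  χ := G.χ.comp Δ.subtype
  ρ n := (G.ρ n).comp Δ.subtype
  degree g := G.degree g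
  trace g := G.trace g
  proj g := G.proj g
  classes g := G.classes g

variable {G : GaloisAction Q X}

lemma isTate_resG {Δ : Subgroup G.Γ} (hΔ : Δ.FiniteIndex) {n j : ℕ} {x : G.V.H (pw X n)} :
    (resG G Δ).IsTate n j x ↔ G.IsTate n j x := by
  constructor
  · rintro ⟨hx, Δ', hΔ', h⟩
    refine ⟨hx, Δ'.map Δ.subtype, ⟨?_⟩, ?_⟩
    · rw [Subgroup.index_map_subtype]
      exact mul_ne_zero hΔ'.index_ne_zero hΔ.index_ne_zero
    · rintro _ ⟨g, hg, rfl⟩
      exact h g hg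
  · rintro ⟨hx, Δ', hΔ', h⟩
    have h1 : (Δ'.subgroupOf Δ).FiniteIndex := by
      have := hΔ'
      infer_instance
    refine ⟨hx, (Δ'.subgroupOf Δ : Subgroup Δ), h1, fun g hg => ?_⟩
    exact h (Δ.subtype g) hg

lemma nondegOn_resG {Δ : Subgroup G.Γ} (hΔ : Δ.FiniteIndex) {n : ℕ} (h : NondegOn G n) :
    NondegOn (resG G Δ) n := by
  intro j x hx hx0
  obtain ⟨j', y, hy, hxy⟩ := h j x ((isTate_resG hΔ).1 hx) hx0
  exact ⟨j', y, (isTate_resG hΔ).2 hy, hxy⟩

/-- **If the index of the Tate classes is finite**, one subgroup of finite index fixes all Tate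
classes. -/
theorem exists_uniform (G : GaloisAction Q X) [Nontrivial (G.V.H X)]
    (hnd : ∀ n, Q.sys.Nondeg (pw X n)) {N : ℕ∞} (hN : G.SL.IsInd X G.act.inv N) (hN' : N ≠ ⊤) :
    ∃ Δ : Subgroup G.Γ, Δ.FiniteIndex ∧ ∀ g ∈ Δ, ∀ n, ∀ x ∈ G.act.inv n, G.act.B g n x = x := by
  obtain ⟨r, c, -, hc, hG⟩ := Sys.ind_generators (S := G.SL)
    (fun n => (hnd n).base G.L) G.act.stab G.act.C_le hN hN'
    (fun n => (G.act.inv n : Set (G.V.H (pw X n)))) fun n => (Submodule.span_eq _).symm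
  have h1 : ∀ i, ∃ Δ : Subgroup G.Γ, Δ.FiniteIndex ∧
      ∀ g ∈ Δ, G.act.B g (c i).1 (c i).2 = (c i).2 := fun i => (G.act.mem_inv.1 (hc i)).2
  choose Δ hΔ h using h1
  have hfi : ∀ s : Finset (Fin r), (⨅ i ∈ s, Δ i).FiniteIndex := by
    classical
    intro s
    induction s using Finset.induction_on with
    | empty =>
      simp only [Finset.notMem_empty, iInf_false, iInf_top]
      infer_instance
    | insert a s ha ih =>
      rw [Finset.iInf_insert]
      have := hΔ a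
      infer_instance
  refine ⟨⨅ i ∈ Finset.univ, Δ i, hfi _, fun g hg n x hx => ?_⟩
  have hg' : ∀ i, g ∈ Δ i := by
    intro i
    rw [Subgroup.mem_iInf] at hg
    have h2 := hg i
    rw [Subgroup.mem_iInf] at h2
    exact h2 (Finset.mem_univ i)
  rw [hG n] at hx
  have h3 : G.SL.genS X c n ≤ LinearMap.ker (G.act.B g n - LinearMap.id) := by
    apply sup_le
    · intro y hy
      rw [LinearMap.mem_ker, LinearMap.sub_apply, G.act.fix g n y hy, LinearMap.id_apply, sub_self]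
    · apply iSup_le
      rintro i _ ⟨f, hf, rfl⟩
      rw [LinearMap.mem_ker, LinearMap.sub_apply, LinearMap.applyₗ_apply_apply,
        G.act.comm g _ n f hf, h i g (hg' i), LinearMap.id_apply, sub_self]
  have h4 := LinearMap.mem_ker.1 (h3 hx)
  rw [LinearMap.sub_apply, LinearMap.id_apply, sub_eq_zero] at h4
  exact h4

/-- The operators which fix a Tate class multiply it by the power of the character. -/
lemma rho_of_B {g : G.Γ} {n j : ℕ} {x : G.V.H (pw X n)} (hx : x ∈ G.V.gr (pw X n) (2 * j))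
    (h : G.act.B g n x = x) : G.ρ n g x = (G.χ g : G.V.K) ^ j • x := by
  have h' : G.B g n x = x := h
  rw [G.B_apply hx, Nat.mul_div_cancel_left j (by norm_num)] at h'
  have hc := G.c_mul_χ g
  have h1 := congrArg (fun w => (G.χ g : G.V.K) ^ j • w) h'
  simp only [smul_smul] at h1
  rw [← mul_pow, mul_comm (G.χ g : G.V.K), hc, one_pow, one_smul] at h1
  exact h1

/-- The quotients cannot have an infinite limit if they are bounded infinitely often. -/
lemma ne_top_of {t r : ℕ → ℕ} {N : ℕ∞} (hN : HasIndex t r N) {C : ℕ}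
    (hC : ∃ᶠ n in atTop, t n ≤ C * r n) : N ≠ ⊤ := by
  rintro rfl
  have h1 : ∀ᶠ n in atTop, (C : ℝ≥0∞) < (t n : ℝ≥0∞) / r n := by
    refine hN.eventually (lt_mem_nhds ?_)
    simp
  obtain ⟨n, hn, hn'⟩ := (hC.and_eventually h1).exists
  refine absurd hn' (not_lt.2 ?_)
  refine ENNReal.div_le_of_le_mul ?_
  exact_mod_cast hn

/-- The case of bounded indices. -/
theorem full {T : HodgeTheory ops} {Q : ClassPred T.W} (hQ : LeHodge T Q) {X : 𝒱.Obj}
    [Nontrivial (T.W.H X)] (hnd : ∀ n, Q.sys.Nondeg (pw X n)) (G : GaloisAction Q X) {C : ℕ}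
    (ht : ∃ᶠ n in atTop, G.tateDim n ≤ C * dimBy T.W Q.P (pw X n)) :
    G.TateAre (IsUniversal Q X) ∧ ((∃ᶠ n in atTop,
      dimBy T.W (IsHodge T) (pw X n) ≤ C * dimBy T.W Q.P (pw X n)) →
        G.TateAre fun n j x => IsHodge T (pw X n) j x) ∧
    ∃ Δ : Subgroup G.Γ, Δ.FiniteIndex ∧ ∀ g ∈ Δ, ∀ n j x, G.IsTate n j x →
      G.ρ n g x = (G.χ g : G.V.K) ^ j • x := by
  have hnt : Nontrivial (G.V.H X) := Pool.Agent.Y129.nontrivial_base G.L
  obtain ⟨c, N, -, -, -, hN, -, -, -, -, h11⟩ := QT.main hQ X hnd _ _ _ (fun n => rfl)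
    (fun n => rfl) (fun n => rfl)
  obtain ⟨N', -, k1, -, -, k4, k5⟩ := h11 G
  have hN' : N' ≠ ⊤ := ne_top_of k1 ht
  refine ⟨k4 hN', fun hh => k5 (ne_top_of hN hh) hN', ?_⟩
  obtain ⟨M, -, h2, -, -⟩ := Sys.stab_index (S := G.SL)
    (fun n => (hnd n).base G.L) G.act.stab G.act.C_le
  have e1 : ∀ n, finrank G.V.K (G.SL.C (pw X n)) = dimBy T.W Q.P (pw X n) :=
    fun n => Sys.finrank_base G.L (pw X n)
  have h2' : HasIndex G.tateDim (fun n => dimBy T.W Q.P (pw X n)) M := by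
    have h3 := h2
    rw [Sys.IsInd] at h3
    simp only [e1, finrank_inv] at h3
    exact h3
  obtain ⟨Δ, hΔ, h⟩ := exists_uniform G hnd h2 (ne_top_of h2' ht)
  exact ⟨Δ, hΔ, fun g hg n j x hx => rho_of_B hx.1 (h g hg n x (G.isTate_iff.1 hx).2)⟩

end Pool.Agent.D0H78.SS
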