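import Mathlib

/-!
# Complements given by alternating forms
-/

namespace Pool.Agent.D0H78.SS

open Module

variable {K V : Type*} [Field K] [AddCommGroup V] [Module K V]

/-- The vectors `v` such that `f (v, u_1, …, u_n) = 0` for all `u_j` in `W`. -/
def orth {n : ℕ} (f : V [⋀^Fin (n + 1)]→ₗ[K] K) (W : Submodule K V) : Submodule K V where
  carrier := {v | ∀ u : Fin n → V, (∀ j, u j ∈ W) → f (Matrix.vecCons v u) = 0}
  zero_mem' u _ := f.map_coord_zero 0 rfl
  add_mem' {a b} ha hb u hu := by
    rw [← AlternatingMap.curryLeft_apply_apply, map_add, AlternatingMap.add_apply,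
      AlternatingMap.curryLeft_apply_apply, AlternatingMap.curryLeft_apply_apply, ha u hu,
      hb u hu, add_zero]
  smul_mem' c a ha u hu := by
    rw [← AlternatingMap.curryLeft_apply_apply, map_smul, AlternatingMap.smul_apply,
      AlternatingMap.curryLeft_apply_apply, ha u hu, smul_zero]

lemma mem_orth {n : ℕ} {f : V [⋀^Fin (n + 1)]→ₗ[K] K} {W : Submodule K V} {v : V} :
    v ∈ orth f W ↔ ∀ u : Fin n → V, (∀ j, u j ∈ W) → f (Matrix.vecCons v u) = 0 := Iff.rfl

/-- It is enough to look at the vectors of a basis with one vector replaced. -/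
lemma mem_orth_of_update {n : ℕ} {f : V [⋀^Fin (n + 1)]→ₗ[K] K} {W : Submodule K V}
    (e : Basis (Fin (n + 1)) K W) {x : V}
    (h : ∀ k, f (Function.update (fun i => (e i : V)) k x) = 0) : x ∈ orth f W := by
  have h1 : (f.curryLeft x).compLinearMap W.subtype = 0 := by
    refine Basis.ext_alternating e fun v hv => ?_
    obtain ⟨k, hk⟩ : ∃ k, k ∉ Set.range v := by
      by_contra hc
      push Not at hc
      have h2 : Function.Surjective v := fun k => hc k
      have h3 := Fintype.card_le_of_surjective v h2
      simp at h3
    have hσ : Function.Bijective (Fin.cons k v : Fin (n + 1) → Fin (n + 1)) := by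
      rw [← Finite.injective_iff_bijective]
      rw [Fin.cons_injective_iff]
      exact ⟨hk, hv⟩
    have h4 := f.map_perm (Function.update (fun i => (e i : V)) k x) (Equiv.ofBijective _ hσ)
    rw [h, smul_zero] at h4
    rw [AlternatingMap.compLinearMap_apply, AlternatingMap.curryLeft_apply_apply,
      AlternatingMap.zero_apply, ← h4]
    congr 1
    funext i
    refine Fin.cases ?_ (fun j => ?_) i
    · simp
    · have h5 : v j ≠ k := fun h' => hk ⟨j, h'⟩
      simp [Function.update_of_ne h5]
  intro u hu
  have h2 := congrArg (fun g => g (fun j => (⟨u j, hu j⟩ : W))) h1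
  simpa using h2

/-- The subspace is complementary to `W` if `f` does not vanish on `W`. -/
lemma isCompl_orth {n : ℕ} {f : V [⋀^Fin (n + 1)]→ₗ[K] K} {W : Submodule K V}
    (e : Basis (Fin (n + 1)) K W) (hf : f (fun i => (e i : V)) ≠ 0) :
    IsCompl W (orth f W) := by
  set b : Fin (n + 1) → V := fun i => (e i : V) with hb
  have hupd : ∀ k i, f (Function.update b k (b i)) = if i = k then f b else 0 := by
    intro k i
    by_cases hik : i = k
    · subst hik
      rw [Function.update_eq_self, if_pos rfl]
    · rw [if_neg hik]
      refine f.map_eq_zero_of_eq _ (i := i) (j := k) ?_ hik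
      rw [Function.update_self, Function.update_of_ne hik]
  have hsum : ∀ (c : Fin (n + 1) → K) k, f (Function.update b k (∑ i, c i • b i)) = c k * f b := by
    intro c k
    rw [f.map_update_sum]
    simp only [f.map_update_smul, hupd, smul_eq_mul]
    simp
  have hmemW : ∀ i, b i ∈ W := fun i => (e i).2
  constructor
  · rw [Submodule.disjoint_def]
    intro x hx hxo
    have h1 : x = ∑ i, e.repr ⟨x, hx⟩ i • b i := by
      have h2 : ((∑ i, e.repr ⟨x, hx⟩ i • e i : W) : V) = x := by rw [e.sum_repr]
      rw [Submodule.coe_sum] at h2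
      exact h2.symm
    have h3 : ∀ k, e.repr ⟨x, hx⟩ k = 0 := by
      intro k
      have h4 : f (Function.update b k x) = 0 := by
        have h5 : Function.update b k x = (Matrix.vecCons x (fun j => b (k.succAbove j))) ∘
            ((Fin.cycleRange k) : Fin (n + 1) → Fin (n + 1)) := by
          funext i
          by_cases hik : i = k
          · subst hik
            simp [Fin.cycleRange_self]
          · obtain ⟨j, rfl⟩ := Fin.exists_succAbove_eq hik
            rw [Function.update_of_ne hik]
            simp [Fin.cycleRange_succAbove]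
        rw [h5, f.map_perm, hxo _ (fun j => hmemW _), smul_zero]
      rw [h1, hsum] at h4
      exact (mul_eq_zero.1 h4).resolve_right hf
    rw [h1]
    simp [h3]
  · rw [codisjoint_iff, eq_top_iff]
    intro v _
    rw [Submodule.mem_sup]
    refine ⟨∑ i, (f (Function.update b i v) / f b) • b i,
      Submodule.sum_mem _ fun i _ => Submodule.smul_mem _ _ (hmemW i),
      v - ∑ i, (f (Function.update b i v) / f b) • b i, ?_, by abel⟩
    refine mem_orth_of_update e fun k => ?_
    change f (Function.update b k _) = 0
    rw [f.map_update_sub, hsum, div_mul_cancel₀ _ hf, sub_self]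

/-- The complement is stable under the operators which multiply the form by a constant. -/
lemma orth_stable {n : ℕ} {f : V [⋀^Fin (n + 1)]→ₗ[K] K} {W : Submodule K V} (t : V ≃ₗ[K] V)
    (ht : ∀ x ∈ W, t.symm x ∈ W) {c : K} (hf : ∀ u, f (fun i => t (u i)) = c * f u) {v : V}
    (hv : v ∈ orth f W) : t v ∈ orth f W := by
  intro u hu
  have h1 : Matrix.vecCons (t v) u = fun i => t (Matrix.vecCons v (fun j => t.symm (u j)) i) := by
    funext i
    refine Fin.cases ?_ (fun j => ?_) i
    · simp
    · simp
  rw [h1, hf, hv _ (fun j => ht _ (hu j)), mul_zero]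

end Pool.Agent.D0H78.SS
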