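import Mathlib

/-!
# Averaging over a subgroup of finite index
-/

namespace Pool.Agent.D0H78.SS

open Module

variable {K V Γ : Type*} [Field K] [AddCommGroup V] [Module K V] [Group Γ]

section Avg

variable (ρ : Γ →* (V ≃ₗ[K] V)) (Δ : Subgroup Γ) (p : Module.End K V)

/-- The conjugates of an operator. -/
def cj (g : Γ) : Module.End K V := (ρ g : V →ₗ[K] V) ∘ₗ p ∘ₗ (ρ g⁻¹ : V →ₗ[K] V)

lemma cj_apply (g : Γ) (v : V) : cj ρ p g v = ρ g (p (ρ g⁻¹ v)) := rfl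

lemma rho_mul (g h : Γ) (v : V) : ρ (g * h) v = ρ g (ρ h v) := by
  rw [map_mul]; rfl

lemma rho_inv (g : Γ) (v : V) : ρ g⁻¹ (ρ g v) = v := by
  rw [← rho_mul, inv_mul_cancel, map_one]; rfl

lemma rho_inv' (g : Γ) (v : V) : ρ g (ρ g⁻¹ v) = v := by
  rw [← rho_mul, mul_inv_cancel, map_one]; rfl

lemma cj_mul {d : Γ} (hp : ∀ v, p (ρ d v) = ρ d (p v)) (a : Γ) :
    cj ρ p (a * d) = cj ρ p a := by
  ext v
  rw [cj_apply, cj_apply, mul_inv_rev, rho_mul, rho_mul]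
  congr 1
  rw [← hp, rho_inv']

lemma cj_eq (hp : ∀ g ∈ Δ, ∀ v, p (ρ g v) = ρ g (p v)) (a b : Γ)
    (hab : QuotientGroup.leftRel Δ a b) : cj ρ p a = cj ρ p b := by
  rw [QuotientGroup.leftRel_apply] at hab
  have h1 := cj_mul ρ p (hp _ hab) a
  rw [mul_inv_cancel_left] at h1
  exact h1.symm

/-- The conjugates, indexed by the cosets. -/
def cq (hp : ∀ g ∈ Δ, ∀ v, p (ρ g v) = ρ g (p v)) : Γ ⧸ Δ → Module.End K V :=
  Quotient.lift (cj ρ p) (cj_eq ρ Δ p hp)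

lemma cq_smul (hp : ∀ g ∈ Δ, ∀ v, p (ρ g v) = ρ g (p v)) (h : Γ) (q : Γ ⧸ Δ) (v : V) :
    cq ρ Δ p hp (h • q) (ρ h v) = ρ h (cq ρ Δ p hp q v) := by
  obtain ⟨g, rfl⟩ := QuotientGroup.mk_surjective q
  change cj ρ p (h * g) (ρ h v) = ρ h (cj ρ p g v)
  rw [cj_apply, cj_apply, mul_inv_rev, rho_mul, rho_mul, rho_inv]

end Avg

/-- **Maschke's theorem** for a subgroup of finite index. -/
theorem exists_compl [CharZero K] (ρ : Γ →* (V ≃ₗ[K] V)) (Δ : Subgroup Γ) [Δ.FiniteIndex]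
    {W W' : Submodule K V} (hW : ∀ g, ∀ x ∈ W, ρ g x ∈ W) (hW' : ∀ g ∈ Δ, ∀ x ∈ W', ρ g x ∈ W')
    (h : IsCompl W W') : ∃ W'' : Submodule K V, (∀ g, ∀ x ∈ W'', ρ g x ∈ W'') ∧
      IsCompl W W'' := by
  classical
  have : Fintype (Γ ⧸ Δ) := Fintype.ofFinite _
  let p : Module.End K V := W.subtype ∘ₗ W.projectionOnto W' h
  have hpW : ∀ x ∈ W, p x = x := fun x hx => by
    change (W.projectionOnto W' h x : V) = x
    rw [Submodule.projectionOnto_apply_left h ⟨x, hx⟩]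
  have hpW' : ∀ x ∈ W', p x = 0 := fun x hx => by
    change (W.projectionOnto W' h x : V) = 0
    rw [(Submodule.projectionOnto_apply_eq_zero_iff h).2 hx, Submodule.coe_zero]
  have hpm : ∀ x, p x ∈ W := fun x => (W.projectionOnto W' h x).2
  have hp : ∀ g ∈ Δ, ∀ v, p (ρ g v) = ρ g (p v) := by
    intro g hg v
    obtain ⟨w, hw, w', hw', rfl⟩ : ∃ w ∈ W, ∃ w' ∈ W', w + w' = v :=
      Submodule.mem_sup.1 (by rw [h.sup_eq_top]; trivial)
    rw [map_add, map_add, hpW _ (hW g w hw), hpW' _ (hW' g hg w' hw'), map_add, map_add,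
      hpW w hw, hpW' w' hw', map_zero]
  have hm : (Fintype.card (Γ ⧸ Δ) : K) ≠ 0 := by
    rw [Nat.cast_ne_zero]
    exact Fintype.card_ne_zero
  let f : Module.End K V := (Fintype.card (Γ ⧸ Δ) : K)⁻¹ • ∑ q, cq ρ Δ p hp q
  have hcW : ∀ q x, cq ρ Δ p hp q x ∈ W := by
    intro q x
    obtain ⟨g, rfl⟩ := QuotientGroup.mk_surjective q
    exact hW g _ (hpm _)
  have hcid : ∀ q, ∀ x ∈ W, cq ρ Δ p hp q x = x := by
    intro q x hx
    obtain ⟨g, rfl⟩ := QuotientGroup.mk_surjective q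
    change ρ g (p (ρ g⁻¹ x)) = x
    rw [hpW _ (hW _ _ hx), rho_inv']
  have hf : LinearMap.IsProj W f := by
    constructor
    · intro x
      change ((Fintype.card (Γ ⧸ Δ) : K)⁻¹ • ∑ q, cq ρ Δ p hp q) x ∈ W
      rw [LinearMap.smul_apply, LinearMap.sum_apply]
      exact Submodule.smul_mem _ _ (Submodule.sum_mem _ fun q _ => hcW q x)
    · intro x hx
      change ((Fintype.card (Γ ⧸ Δ) : K)⁻¹ • ∑ q, cq ρ Δ p hp q) x = x
      rw [LinearMap.smul_apply, LinearMap.sum_apply, Finset.sum_congr rfl fun q _ => hcid q x hx,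
        Finset.sum_const, Finset.card_univ, ← Nat.cast_smul_eq_nsmul K, smul_smul,
        inv_mul_cancel₀ hm, one_smul]
  refine ⟨LinearMap.ker f, ?_, hf.isCompl⟩
  intro g x hx
  rw [LinearMap.mem_ker] at hx ⊢
  have h1 : f (ρ g x) = ρ g (f x) := by
    change ((Fintype.card (Γ ⧸ Δ) : K)⁻¹ • ∑ q, cq ρ Δ p hp q) (ρ g x) =
      ρ g (((Fintype.card (Γ ⧸ Δ) : K)⁻¹ • ∑ q, cq ρ Δ p hp q) x)
    rw [LinearMap.smul_apply, LinearMap.smul_apply, LinearMap.sum_apply, LinearMap.sum_apply,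
      map_smul, map_sum]
    congr 1
    rw [← Equiv.sum_comp (MulAction.toPerm g : Equiv.Perm (Γ ⧸ Δ))]
    exact Finset.sum_congr rfl fun q _ => cq_smul ρ Δ p hp g q x
  rw [h1, hx, map_zero]

end Pool.Agent.D0H78.SS
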