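import Pool.Agent.D0H78.SS.Ext

/-!
# Semisimplicity from the nondegeneracy of the Tate classes
-/

open CategoryTheory AlgebraicGeometry TensorProduct

universe u v

namespace Pool.Agent.D0H78.SS

open Module
open Pool.Agent.H914 Pool.Agent.H914.VarClass Pool.Agent.H914.VarClass.Obj
  Pool.Agent.H914.WeilCohomology Pool.Agent.Y133.Half Pool.Agent.D0H78.QT
open Pool.Agent.D0H78.MT (IsProj ext gl isProj_left isProj_right)

variable {k : Type u} [Field k] {𝒱 : VarClass k} {ops : CycleOps 𝒱}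

variable {W : WeilCohomology.{u, 0} ops} {Q : ClassPred W} {X : 𝒱.Obj} (G : GaloisAction Q X)

/-- The operators commute with the external products. -/
lemma rho_gl (g : G.Γ) {m n : ℕ} (x : G.V.H (pw X m)) (y : G.V.H (pw X n)) :
    G.ρ (m + n + 1) g (gl G.V x y) = gl G.V (G.ρ m g x) (G.ρ n g y) := by
  have e1 : ∀ (x : G.V.H (pw X m)) (y : G.V.H (pw X n)), gl G.V x y =
      G.V.map ((pwAdd X m n).inv ≫ fst _ _) x * G.V.map ((pwAdd X m n).inv ≫ snd _ _) y := by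
    intro x y
    rw [gl, xp, map_mul (G.V.map (pwAdd X m n).inv), ← G.V.map_comp, ← G.V.map_comp]
  rw [e1, e1, map_mul (G.ρ (m + n + 1) g), G.equiv, G.equiv]
  · intro q hq
    rw [Category.assoc]
    exact isProj_right m n hq
  · intro q hq
    rw [Category.assoc]
    exact isProj_left m hq n

lemma rho_ep (g : G.Γ) {n m : ℕ} (a : G.V.H (pw X n)) : ∀ (r : ℕ)
    (u : Fin r → G.V.H (pw X m)),
    G.ρ (ix n m r) g (ep G.V a r u) = ep G.V (G.ρ n g a) r (fun i => G.ρ m g (u i))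
  | 0, u => rfl
  | r + 1, u => by
    rw [ep_succ, ep_succ]
    refine (rho_gl G g _ _).trans ?_
    rw [rho_ep g a r]
    rfl

lemma rho_ap (g : G.Γ) {n m : ℕ} (a : G.V.H (pw X n)) (r : ℕ) (u : Fin r → G.V.H (pw X m)) :
    G.ρ (ix n m r) g (ap a r u) = ap (G.ρ n g a) r (fun i => G.ρ m g (u i)) := by
  rw [ap_apply, ap_apply, map_sum]
  refine Finset.sum_congr rfl fun σ _ => ?_
  rw [Units.smul_def, map_zsmul, rho_ep]
  rfl

/-- The subspace of the cohomology of degree `i` of a power of `X` is stable under the group. -/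
def IsSub (m i : ℕ) (U : Submodule G.V.K (G.V.H (pw X m))) : Prop :=
  U ≤ G.V.gr (pw X m) i ∧ ∀ g, ∀ x ∈ U, G.ρ m g x ∈ U

/-- The operators of the group on the cohomology. -/
noncomputable def rl (m : ℕ) : G.Γ →* (G.V.H (pw X m) ≃ₗ[G.V.K] G.V.H (pw X m)) where
  toFun g := (G.ρ m g).toLinearEquiv
  map_one' := by
    rw [map_one]; rfl
  map_mul' g h := by
    rw [map_mul]; rfl

lemma rl_apply (m : ℕ) (g : G.Γ) (x : G.V.H (pw X m)) : rl G m g x = G.ρ m g x := rfl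

variable {G}

/-- The operator on a stable subspace. -/
noncomputable def res {m i : ℕ} {U : Submodule G.V.K (G.V.H (pw X m))} (hU : IsSub G m i U)
    (g : G.Γ) : U →ₗ[G.V.K] U :=
  (rl G m g : G.V.H (pw X m) →ₗ[G.V.K] G.V.H (pw X m)).restrict (hU.2 g)

variable (G)

/-- The pairing is nondegenerate on the Tate classes on one power. -/
def NondegOn (n : ℕ) : Prop := ∀ j x, G.IsTate n j x → x ≠ 0 → ∃ j' y, G.IsTate n j' y ∧
  G.V.tr (pw X n) (x * y) ≠ 0

variable {G}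

/-- The antisymmetrised product is a Tate class. -/
lemma isTate_ap {m i : ℕ} {U : Submodule G.V.K (G.V.H (pw X m))}
    (hU : IsSub G m i U) {n d j : ℕ} {x : G.V.H (pw X n)}
    (hx : x ∈ G.V.gr (pw X n) d) {r : ℕ} (e : Basis (Fin r) G.V.K U)
    (hd : i * r + d = 2 * j) {Δ : Subgroup G.Γ} (hΔ : Δ.FiniteIndex)
    (h : ∀ g ∈ Δ, LinearMap.det (res hU g) • G.ρ n g x = (G.χ g : G.V.K) ^ j • x) :
    G.IsTate (ix n m r) j (ap x r (fun l => (e l : G.V.H (pw X m)))) := by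
  refine ⟨?_, Δ, hΔ, fun g hg => ?_⟩
  · rw [← hd]
    exact ap_deg hx r fun l => hU.1 (e l).2
  · rw [rho_ap]
    have h1 : (fun l => G.ρ m g (e l : G.V.H (pw X m))) =
        fun l => ((res hU g) (e l) : G.V.H (pw X m)) := rfl
    refine Eq.trans (congrArg (fun u => ap (G.ρ n g x) r u) h1) ?_
    rw [ap_map e, ← ap_smul, h g hg, ap_smul]

/-- **Semisimplicity** from the nondegeneracy of the Tate classes and the existence of a dual line for
the determinant. -/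
theorem exists_sub {m i : ℕ} {U : Submodule G.V.K (G.V.H (pw X m))}
    (hU : IsSub G m i U) {n d j : ℕ} {x : G.V.H (pw X n)} (hx0 : x ≠ 0)
    (hx : x ∈ G.V.gr (pw X n) d) (hd : i * finrank G.V.K U + d = 2 * j) {Δ : Subgroup G.Γ}
    (hΔ : Δ.FiniteIndex)
    (h : ∀ g ∈ Δ, LinearMap.det (res hU g) • G.ρ n g x = (G.χ g : G.V.K) ^ j • x)
    (hN : NondegOn G (n + finrank G.V.K U * (m + 1))) :
    ∃ U', IsSub G m i U' ∧ U ⊓ U' = ⊥ ∧ U ⊔ U' = G.V.gr (pw X m) i := by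
  rw [← ix_eq] at hN
  obtain ⟨r, hr⟩ : ∃ r, finrank G.V.K U = r := ⟨_, rfl⟩
  let e : Basis (Fin r) G.V.K U := (finBasis G.V.K U).reindex (finCongr hr)
  rw [hr] at hd hN
  set b : Fin r → G.V.H (pw X m) := fun l => (e l : G.V.H (pw X m)) with hb
  have hω0 : ap x r b ≠ 0 := ap_ne_zero hx0 e
  have hω : G.IsTate (ix n m r) j (ap x r b) := isTate_ap hU hx e hd hΔ h
  obtain ⟨j', y, ⟨-, Δ', hΔ', hy⟩, hxy⟩ := hN _ _ hω hω0
  rcases Nat.eq_zero_or_pos r with hr0 | hr0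
  · have h1 : U = ⊥ := by
      rw [← Submodule.finrank_eq_zero (R := G.V.K), hr, hr0]
    refine ⟨G.V.gr (pw X m) i, ⟨le_rfl, fun g x hx => G.degree g m i x hx⟩, ?_, ?_⟩
    · rw [h1, bot_inf_eq]
    · rw [h1, bot_sup_eq]
  obtain ⟨r', rfl⟩ : ∃ r', r = r' + 1 := ⟨r - 1, by omega⟩
  let F : G.V.H (pw X (ix n m (r' + 1))) →ₗ[G.V.K] G.V.K :=
    (G.V.tr (pw X (ix n m (r' + 1)))) ∘ₗ (LinearMap.mulRight G.V.K y)
  let f : G.V.H (pw X m) [⋀^Fin (r' + 1)]→ₗ[G.V.K] G.V.K :=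
    F.compAlternatingMap (ap x (r' + 1))
  have hf : ∀ u, f u = G.V.tr (pw X (ix n m (r' + 1))) (ap x (r' + 1) u * y) := fun u => rfl
  have hcompl : IsCompl U (orth f U) := isCompl_orth e hxy
  have hstab : ∀ g ∈ Δ ⊓ Δ', ∀ v ∈ orth f U, rl G m g v ∈ orth f U := by
    intro g hg v hv
    have hχ : (G.χ g : G.V.K) ≠ 0 := Units.ne_zero _
    refine orth_stable (rl G m g) (fun z hz => ?_)
      (c := (G.χ g : G.V.K)⁻¹ ^ j * LinearMap.det (res hU g) * ((G.χ g : G.V.K)⁻¹ ^ j' *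
        (G.χ g : G.V.K) ^ (pw X (ix n m (r' + 1))).dim)) (fun u => ?_) hv
    · have h1 : (rl G m g).symm z = G.ρ m g⁻¹ z := by
        rw [LinearEquiv.symm_apply_eq, ← rl_apply]
        exact (rho_inv' (rl G m) g z).symm
      rw [h1]
      exact hU.2 _ _ hz
    · have h1 : x = ((G.χ g : G.V.K)⁻¹ ^ j * LinearMap.det (res hU g)) • G.ρ n g x := by
        rw [mul_smul, h g hg.1, smul_smul, ← mul_pow, inv_mul_cancel₀ hχ, one_pow, one_smul]
      have h2 : y = (G.χ g : G.V.K)⁻¹ ^ j' • G.ρ _ g y := by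
        rw [hy g hg.2, smul_smul, ← mul_pow, inv_mul_cancel₀ hχ, one_pow, one_smul]
      have h3 : ap x (r' + 1) (fun l => rl G m g (u l)) =
          ((G.χ g : G.V.K)⁻¹ ^ j * LinearMap.det (res hU g)) •
            G.ρ _ g (ap x (r' + 1) u) := by
        rw [rho_ap]
        conv_lhs => rw [h1]
        rw [ap_smul]
        rfl
      rw [hf, hf, h3]
      conv_lhs => rw [h2]
      rw [smul_mul_assoc, mul_smul_comm, map_smul, map_smul, ← map_mul (G.ρ _ g), G.trace,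
        smul_eq_mul, smul_eq_mul]
      ring
  have hfi : (Δ ⊓ Δ').FiniteIndex := inferInstance
  have : CharZero G.V.K := by
    obtain ⟨φ⟩ := G.emb
    exact (RingHom.charZero φ : CharZero G.L)
  obtain ⟨U'', h1, h2⟩ := exists_compl (rl G m) (Δ ⊓ Δ') (fun g x hx => hU.2 g x hx) hstab hcompl
  refine ⟨U'' ⊓ G.V.gr (pw X m) i,
    ⟨inf_le_right, fun g z hz => ⟨h1 g z hz.1, G.degree g m i z hz.2⟩⟩, ?_, ?_⟩
  · rw [eq_bot_iff, ← h2.inf_eq_bot]
    exact inf_le_inf_left _ inf_le_left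
  · apply le_antisymm (sup_le hU.1 inf_le_right)
    intro z hz
    obtain ⟨a, ha, a', ha', haz⟩ : ∃ a ∈ U, ∃ a' ∈ U'', a + a' = z :=
      Submodule.mem_sup.1 (by rw [h2.sup_eq_top]; trivial)
    refine Submodule.mem_sup.2 ⟨a, ha, a', ⟨ha', ?_⟩, haz⟩
    have h3 : a' = z - a := by rw [← haz]; abel
    rw [h3]
    exact Submodule.sub_mem _ hz (hU.1 ha)

end Pool.Agent.D0H78.SS
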