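import Pool.Agent.D0H78.QT.Final
import Pool.Agent.D0H78.SS.Alt
import Pool.Agent.D0H78.SS.Avg

/-!
# Exterior products of classes
-/

open CategoryTheory AlgebraicGeometry TensorProduct

universe u v

namespace Pool.Agent.D0H78.SS

open Module
open Pool.Agent.H914 Pool.Agent.H914.VarClass Pool.Agent.H914.VarClass.Obj
  Pool.Agent.H914.WeilCohomology Pool.Agent.Y133.Half
open Pool.Agent.D0H78.MT (gl)

variable {k : Type u} [Field k] {𝒱 : VarClass k} {ops : CycleOps 𝒱}

section General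

variable (W : WeilCohomology.{u, v} ops)

/-- The external product as a bilinear map. -/
noncomputable def glL (X : 𝒱.Obj) (a b : ℕ) :
    W.H (pw X a) →ₗ[W.K] W.H (pw X b) →ₗ[W.K] W.H (pw X (a + b + 1)) :=
  LinearMap.mk₂ W.K (fun x y => gl W x y)
    (fun x x' y => by rw [gl, xp_add_left, map_add]; rfl)
    (fun c x y => by rw [gl, xp_smul_left, map_smul]; rfl)
    (fun x y y' => by rw [gl, xp_add_right, map_add]; rfl)
    (fun c x y => by rw [gl, xp_smul_right, map_smul]; rfl)

lemma glL_apply {X : 𝒱.Obj} {a b : ℕ} (x : W.H (pw X a)) (y : W.H (pw X b)) :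
    glL W X a b x y = gl W x y := rfl

/-- The contraction of the second factor. -/
noncomputable def con {P Y : 𝒱.Obj} (l : W.H Y →ₗ[W.K] W.K) :
    W.H (P.prod Y) →ₗ[W.K] W.H P :=
  (TensorProduct.rid W.K (W.H P)).toLinearMap ∘ₗ (LinearMap.lTensor (W.H P) l) ∘ₗ
    (LinearEquiv.ofBijective _ (W.kunneth P Y)).symm.toLinearMap

variable {W}

lemma con_xp {P Y : 𝒱.Obj} (l : W.H Y →ₗ[W.K] W.K) (x : W.H P) (y : W.H Y) :
    con W l (xp W x y) = l y • x := by
  have h1 : (LinearEquiv.ofBijective _ (W.kunneth P Y)).symm (xp W x y) = x ⊗ₜ[W.K] y := by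
    rw [LinearEquiv.symm_apply_eq]
    rfl
  change TensorProduct.rid W.K (W.H P) (LinearMap.lTensor (W.H P) l
    ((LinearEquiv.ofBijective _ (W.kunneth P Y)).symm (xp W x y))) = _
  rw [h1, LinearMap.lTensor_tmul, TensorProduct.rid_tmul]

variable (W)

/-- The contraction of the second factor for powers. -/
noncomputable def gc {X : 𝒱.Obj} {a b : ℕ} (l : W.H (pw X b) →ₗ[W.K] W.K) :
    W.H (pw X (a + b + 1)) →ₗ[W.K] W.H (pw X a) :=
  con W l ∘ₗ (W.map (pwAdd X a b).hom).toLinearMap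

variable {W}

lemma gc_gl {X : 𝒱.Obj} {a b : ℕ} (l : W.H (pw X b) →ₗ[W.K] W.K) (x : W.H (pw X a))
    (y : W.H (pw X b)) : gc W l (gl W x y) = l y • x := by
  change con W l (W.map (pwAdd X a b).hom (W.map (pwAdd X a b).inv (xp W x y))) = _
  rw [← W.map_comp, Iso.hom_inv_id, W.map_id, con_xp]

/-- The index of the product of the power `n` and of `r` copies of the power `m`. -/
def ix (n m : ℕ) : ℕ → ℕ
  | 0 => n
  | r + 1 => ix n m r + m + 1

lemma ix_eq (n m r : ℕ) : ix n m r = n + r * (m + 1) := by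
  induction r with
  | zero => rw [ix, zero_mul, add_zero]
  | succ r ih => rw [ix, ih]; ring

variable (W)

/-- The external product of `a` and of `r` classes on the power `m` of `X`. -/
noncomputable def ep {X : 𝒱.Obj} {n m : ℕ} (a : W.H (pw X n)) :
    ∀ r : ℕ, MultilinearMap W.K (fun _ : Fin r => W.H (pw X m)) (W.H (pw X (ix n m r)))
  | 0 => MultilinearMap.constOfIsEmpty W.K _ a
  | r + 1 => MultilinearMap.uncurryRight ((glL W X (ix n m r) m).compMultilinearMap (ep a r))

variable {W} {X : 𝒱.Obj} {n m : ℕ}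

lemma ep_zero (a : W.H (pw X n)) (u : Fin 0 → W.H (pw X m)) : ep W a 0 u = a := rfl

lemma ep_succ (a : W.H (pw X n)) (r : ℕ) (u : Fin (r + 1) → W.H (pw X m)) :
    ep W a (r + 1) u = gl W (ep W a r (Fin.init u)) (u (Fin.last r)) := rfl

variable (W) in
/-- The contraction of the last `r` factors. -/
noncomputable def ct {X : 𝒱.Obj} {n m : ℕ} : ∀ r : ℕ, (Fin r → W.H (pw X m) →ₗ[W.K] W.K) →
    W.H (pw X (ix n m r)) →ₗ[W.K] W.H (pw X n)
  | 0, _ => LinearMap.id
  | r + 1, l => (ct r (Fin.init l)) ∘ₗ gc W (a := ix n m r) (l (Fin.last r))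

lemma ct_ep (a : W.H (pw X n)) : ∀ (r : ℕ) (l : Fin r → W.H (pw X m) →ₗ[W.K] W.K)
    (u : Fin r → W.H (pw X m)), ct W r l (ep W a r u) = (∏ i, l i (u i)) • a
  | 0, l, u => by
    rw [ep_zero, Finset.univ_eq_empty, Finset.prod_empty, one_smul]
    rfl
  | r + 1, l, u => by
    change ct W r (Fin.init l) (gc W (l (Fin.last r)) (gl W (ep W a r (Fin.init u))
      (u (Fin.last r)))) = _
    rw [gc_gl, map_smul, ct_ep a r, smul_smul, Fin.prod_univ_castSucc, mul_comm]
    rfl

lemma gl_deg {a b i j : ℕ} {x : W.H (pw X a)} {y : W.H (pw X b)} (hx : x ∈ W.gr (pw X a) i)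
    (hy : y ∈ W.gr (pw X b) j) : gl W x y ∈ W.gr (pw X (a + b + 1)) (i + j) :=
  W.map_mem _ (W.mul_mem (W.map_mem _ hx) (W.map_mem _ hy))

lemma ep_deg {a : W.H (pw X n)} {d i : ℕ} (ha : a ∈ W.gr (pw X n) d) : ∀ (r : ℕ)
    {u : Fin r → W.H (pw X m)} (_ : ∀ j, u j ∈ W.gr (pw X m) i),
      ep W a r u ∈ W.gr (pw X (ix n m r)) (i * r + d)
  | 0, u, _ => by
    rw [ep_zero, mul_zero, zero_add]
    exact ha
  | r + 1, u, hu => by
    rw [ep_succ, show i * (r + 1) + d = (i * r + d) + i by ring]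
    exact gl_deg (ep_deg ha r fun j => hu _) (hu _)

/-- The product is linear in the first variable. -/
lemma ep_smul (c : W.K) (a : W.H (pw X n)) : ∀ (r : ℕ) (u : Fin r → W.H (pw X m)),
    ep W (c • a) r u = c • ep W a r u
  | 0, u => rfl
  | r + 1, u => by
    rw [ep_succ, ep_succ, ep_smul c a r, ← glL_apply, map_smul]
    rfl

/-- The antisymmetrised product. -/
noncomputable def ap (a : W.H (pw X n)) (r : ℕ) :
    W.H (pw X m) [⋀^Fin r]→ₗ[W.K] W.H (pw X (ix n m r)) :=
  MultilinearMap.alternatization (ep W a r)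

lemma ap_apply (a : W.H (pw X n)) (r : ℕ) (u : Fin r → W.H (pw X m)) :
    ap a r u = ∑ σ : Equiv.Perm (Fin r), Equiv.Perm.sign σ • ep W a r (fun i => u (σ i)) := by
  rw [ap, MultilinearMap.alternatization_apply]
  rfl

lemma ap_smul (c : W.K) (a : W.H (pw X n)) (r : ℕ) (u : Fin r → W.H (pw X m)) :
    ap (c • a) r u = c • ap a r u := by
  rw [ap_apply, ap_apply, Finset.smul_sum]
  refine Finset.sum_congr rfl fun σ _ => ?_
  rw [ep_smul, smul_comm]

lemma ap_deg {a : W.H (pw X n)} {d i : ℕ} (ha : a ∈ W.gr (pw X n) d) (r : ℕ)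
    {u : Fin r → W.H (pw X m)} (hu : ∀ j, u j ∈ W.gr (pw X m) i) :
    ap a r u ∈ W.gr (pw X (ix n m r)) (i * r + d) := by
  rw [ap_apply]
  refine Submodule.sum_mem _ fun σ _ => ?_
  rw [Units.smul_def, ← Int.cast_smul_eq_zsmul W.K]
  exact Submodule.smul_mem _ _ (ep_deg ha r fun j => hu _)

/-- The contraction of the antisymmetrised product of a basis. -/
lemma exists_ct {r : ℕ} {U : Submodule W.K (W.H (pw X m))} (e : Basis (Fin r) W.K U) (n : ℕ) :
    ∃ c : W.H (pw X (ix n m r)) →ₗ[W.K] W.H (pw X n), ∀ a : W.H (pw X n),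
      c (ap a r (fun i => (e i : W.H (pw X m)))) = a := by
  classical
  have hl : ∀ i, ∃ l : W.H (pw X m) →ₗ[W.K] W.K, l ∘ₗ U.subtype = e.coord i := fun i =>
    LinearMap.exists_extend _
  choose l hl using hl
  have hl' : ∀ i j, l i (e j : W.H (pw X m)) = if j = i then 1 else 0 := by
    intro i j
    have h1 := congrArg (fun f => f (e j)) (hl i)
    have h2 : l i (e j : W.H (pw X m)) = e.coord i (e j) := h1
    rw [h2, Basis.coord_apply, Basis.repr_self, Finsupp.single_apply]
  refine ⟨ct W r l, fun a => ?_⟩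
  rw [ap_apply, map_sum]
  have h2 : ∀ σ : Equiv.Perm (Fin r), ct W r l (Equiv.Perm.sign σ •
      ep W a r (fun i => (e (σ i) : W.H (pw X m)))) = if σ = 1 then a else 0 := by
    intro σ
    rw [Units.smul_def, map_zsmul, ct_ep]
    by_cases hσ : σ = 1
    · subst hσ
      simp [hl']
    · rw [if_neg hσ]
      obtain ⟨i, hi⟩ : ∃ i, σ i ≠ i := by
        by_contra hc
        push Not at hc
        exact hσ (Equiv.ext hc)
      rw [Finset.prod_eq_zero (Finset.mem_univ i) (by rw [hl', if_neg hi]), zero_smul, smul_zero]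
  rw [Finset.sum_congr rfl fun σ _ => h2 σ]
  rw [Finset.sum_ite_eq' Finset.univ, if_pos (Finset.mem_univ _)]

/-- The antisymmetrised product of linearly independent classes is not zero. -/
lemma ap_ne_zero {a : W.H (pw X n)} (ha : a ≠ 0) {r : ℕ} {U : Submodule W.K (W.H (pw X m))}
    (e : Basis (Fin r) W.K U) : ap a r (fun i => (e i : W.H (pw X m))) ≠ 0 := by
  obtain ⟨c, hc⟩ := exists_ct e n
  intro h
  apply ha
  rw [← hc a, h, map_zero]

/-- The product of the images of a basis. -/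
lemma ap_map {a : W.H (pw X n)} {r : ℕ} {U : Submodule W.K (W.H (pw X m))}
    (e : Basis (Fin r) W.K U) (f : U →ₗ[W.K] U) :
    ap a r (fun i => (f (e i) : W.H (pw X m))) =
      LinearMap.det f • ap a r (fun i => (e i : W.H (pw X m))) := by
  rw [← sub_eq_zero, ← Module.forall_dual_apply_eq_zero_iff W.K]
  intro φ
  have h1 := AlternatingMap.eq_smul_basis_det e
    ((φ.compAlternatingMap (ap a r)).compLinearMap U.subtype)
  have h2 := congrArg (fun g => g (fun i => f (e i))) h1
  have h3 : φ (ap a r (fun i => (f (e i) : W.H (pw X m)))) =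
      φ (ap a r (fun i => (e i : W.H (pw X m)))) * e.det (fun i => f (e i)) := h2
  have h4 : e.det (fun i => f (e i)) = LinearMap.det f := by
    have h5 := Basis.det_comp e f e
    rw [Basis.det_self, mul_one] at h5
    exact h5
  rw [map_sub, map_smul, h3, h4, smul_eq_mul, mul_comm, sub_self]

end General

end Pool.Agent.D0H78.SS
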