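import Pool.Agent.D0H78.SS.Loc
import Pool.Agent.D0H78.QT.Nd

/-!
# The universal classes are nondegenerate
-/

open CategoryTheory AlgebraicGeometry TensorProduct

universe u v

namespace Pool.Agent.D0H78.SS

open Module
open Pool.Agent.H914 Pool.Agent.H914.VarClass Pool.Agent.H914.VarClass.Obj
  Pool.Agent.H914.WeilCohomology Pool.Agent.Y133.Half Pool.Agent.D0H78.QT Pool.Agent.Y121.AH
  Pool.Agent.H281R3.HT
open Pool.Agent.D0H78.MT (IsProj ext)

variable {k : Type u} [Field k] {𝒱 : VarClass k} {ops : CycleOps 𝒱} {T : HodgeTheory ops}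
  {Q : ClassPred T.W} {X : 𝒱.Obj}

/-- Products of Tate classes by divisor classes. -/
lemma tate_mul (G : GaloisAction Q X) {n j : ℕ} {D : (pw X n).Cycles}
    (hD : (pw X n).IsCyc 1 D) {x : T.W.H (pw X n)} (hx : G.IsTate n j (ext T.W G.L x)) :
    G.IsTate n (j + 1) (ext T.W G.L (T.W.cl (pw X n) D * x)) := by
  obtain ⟨h1, Δ, hΔ, h2⟩ := hx
  obtain ⟨w, hw⟩ : ∃ w : G.V.H (pw X n), w = G.V.cl (pw X n) D := ⟨_, rfl⟩
  have hw' : em T.W G.L (T.W.cl (pw X n) D) = w := hw.symm
  have e1 : ext T.W G.L (T.W.cl (pw X n) D * x) = w * ext T.W G.L x := by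
    change em T.W G.L _ = _
    rw [em_mul, hw']
    rfl
  refine ⟨?_, Δ, hΔ, fun g hg => ?_⟩
  · rw [e1, show 2 * (j + 1) = 2 * 1 + 2 * j by ring]
    refine G.V.mul_mem ?_ h1
    rw [hw]
    exact G.V.cl_mem hD
  · have h3 : G.ρ n g w = (G.χ g : G.V.K) • w := by
      have h3 := G.classes g n 1 _ (Q.cl hD)
      rw [pow_one] at h3
      have h4 : ext T.W G.L (T.W.cl (pw X n) D) = w := hw'
      rw [h4] at h3
      exact h3
    rw [e1, map_mul, h3, h2 g hg, smul_mul_assoc, mul_smul_comm, smul_smul, pow_succ']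

/-- The inverses of the Lefschetz isomorphisms preserve the Tate classes. -/
lemma tate_lift (G : GaloisAction Q X) {n j : ℕ}
    (hj : 2 * j ≤ (pw X n).dim) {D : (pw X n).Cycles} (hD : (pw X n).IsCyc 1 D)
    (hL : HardLefschetz T.W (pw X n) D) {x : T.W.H (pw X n)}
    (hx : x ∈ T.W.gr (pw X n) (2 * j))
    (hv : G.IsTate n ((pw X n).dim - j)
      (ext T.W G.L (T.W.cl (pw X n) D ^ ((pw X n).dim - 2 * j) * x))) :
    G.IsTate n j (ext T.W G.L x) := by
  obtain ⟨-, Δ, hΔ, hv⟩ := hv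
  refine ⟨em_gr hx, Δ, hΔ, fun g hg => ?_⟩
  set d := (pw X n).dim with hd
  obtain ⟨w, hw⟩ : ∃ w : G.V.H (pw X n), w = G.V.cl (pw X n) D := ⟨_, rfl⟩
  have hw' : em T.W G.L (T.W.cl (pw X n) D) = w := hw.symm
  have h1 : G.ρ n g (w ^ (d - 2 * j) * em T.W G.L x) =
      (G.χ g : G.V.K) ^ (d - j) • (w ^ (d - 2 * j) * em T.W G.L x) := by
    have h2 := hv g hg
    have h3 : ext T.W G.L (T.W.cl (pw X n) D ^ (d - 2 * j) * x) =
        w ^ (d - 2 * j) * em T.W G.L x := by
      change em T.W G.L _ = _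
      rw [em_mul, QT.em_pow, hw']
    rw [h3] at h2
    exact h2
  have h2 : G.ρ n g w = (G.χ g : G.V.K) • w := by
    have h3 := G.classes g n 1 _ (Q.cl hD)
    rw [pow_one] at h3
    have h4 : ext T.W G.L (T.W.cl (pw X n) D) = w := hw'
    rw [h4] at h3
    exact h3
  have h3 : w ^ (d - 2 * j) * (G.ρ n g (em T.W G.L x) -
      (G.χ g : G.V.K) ^ j • em T.W G.L x) = 0 := by
    have hc := G.c_mul_χ g
    have h4 : (G.χ g : G.V.K) ^ (d - 2 * j) • (w ^ (d - 2 * j) * G.ρ n g (em T.W G.L x)) =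
        (G.χ g : G.V.K) ^ (d - 2 * j) • ((G.χ g : G.V.K) ^ j •
          (w ^ (d - 2 * j) * em T.W G.L x)) := by
      rw [smul_smul, ← pow_add, show d - 2 * j + j = d - j by omega, ← h1, map_mul, map_pow, h2,
        smul_pow, smul_mul_assoc]
    have h5 := congrArg (fun y => G.c g ^ (d - 2 * j) • y) h4
    simp only [smul_smul, ← mul_pow, hc, one_pow, one_smul] at h5
    rw [← mul_assoc, ← mul_pow, hc, one_pow, one_mul] at h5
    rw [mul_sub, h5, mul_smul_comm, sub_self]
  have h4 : G.ρ n g (em T.W G.L x) - (G.χ g : G.V.K) ^ j • em T.W G.L x ∈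
      G.V.gr (pw X n) (2 * j) :=
    Submodule.sub_mem _ (G.degree g n _ _ (em_gr hx)) (Submodule.smul_mem _ _ (em_gr hx))
  have h5 : G.ρ n g (em T.W G.L x) - (G.χ g : G.V.K) ^ j • em T.W G.L x = 0 := by
    refine Y121.AH.hl_inj (W := G.V) (base_hardLefschetz (L := G.L) hD hL) hj h4 ?_
    rw [← hw]
    exact h3
  exact sub_eq_zero.1 h5

lemma em_sum {L : Type} [Field L] [Algebra T.W.K L] {Z : 𝒱.Obj} {ι : Type*} (s : Finset ι)
    (f : ι → T.W.H Z) : em T.W L (∑ i ∈ s, f i) = ∑ i ∈ s, em T.W L (f i) := by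
  classical
  induction s using Finset.induction_on with
  | empty => rw [Finset.sum_empty, Finset.sum_empty]; exact em_zero
  | insert a s ha ih => rw [Finset.sum_insert ha, Finset.sum_insert ha, ← ih]; exact em_add _ _

variable (T Q X) in
/-- The universal classes of degree `2 j`. -/
noncomputable def UP (n j : ℕ) : Submodule T.W.K (T.W.H (pw X n)) := T.W.gr (pw X n) (2 * j) ⊓ Uni T Q X n

lemma mem_UP (hQ : LeHodge T Q) {n j : ℕ} {x : T.W.H (pw X n)} :
    x ∈ UP T Q X n j ↔ IsUniversal Q X n j x := mem_Uni_iff hQ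

/-- The pairing is nondegenerate on the universal classes. -/
lemma uni_nondeg (hQ : LeHodge T Q) {n j l : ℕ} (hjl : j + l = (pw X n).dim)
    {x : T.W.H (pw X n)} (hx : x ∈ UP T Q X n j)
    (h : ∀ y ∈ UP T Q X n l, T.W.tr (pw X n) (x * y) = 0) : x = 0 := by
  let _ : Algebra T.W.K ℝ := (ratReal T).toAlgebra
  obtain ⟨D, hD⟩ := T.dec.polar (pw X n)
  have hHR : LocHR T.W (pw X n) (UP T Q X n) (T.W.cl (pw X n) D) :=
    { gr := fun j => inf_le_left
      wgr := T.W.cl_mem hD.1
      mul := fun j x hx => (mem_UP hQ).2 fun G => tate_mul G hD.1 ((mem_UP hQ).1 hx G)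
      lift := fun j hj v hv => by
        have h0 : v ∈ T.W.gr (pw X n) (2 * (pw X n).dim - 2 * j) := by
          have := hv.1
          rwa [show 2 * ((pw X n).dim - j) = 2 * (pw X n).dim - 2 * j by omega] at this
        obtain ⟨x, hx, hxv⟩ := Y121.AH.hl_surj hD.2.1 hj h0
        refine ⟨x, (mem_UP hQ).2 fun G => tate_lift G hj hD.1 hD.2.1 hx ?_, hxv⟩
        rw [hxv]
        exact (mem_UP hQ).1 hv G
      pos := fun j hj x hx hp hne => by
        have hH : IsHodge T (pw X n) j x := Uni_isHodge hQ hx.2 hx.1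
        obtain ⟨r, hr, h⟩ := hD.2.2 j hj x hH.1 hH.2 hp hne
        have h1 := congrArg (algebraMap T.W.K ℝ) h
        rw [map_mul, map_pow, map_neg, map_one, map_ratCast] at h1
        rw [h1]
        exact_mod_cast hr }
  exact hHR.nondeg hjl hx h

/-- For every linear form on the universal classes of codimension `j` there is a universal class of
complementary codimension which represents it. -/
lemma exists_dual (hQ : LeHodge T Q) {n j l : ℕ} (hjl : j + l = (pw X n).dim)
    (φ : UP T Q X n j →ₗ[T.W.K] T.W.K) : ∃ y ∈ UP T Q X n l,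
      ∀ x : UP T Q X n j, T.W.tr (pw X n) (x * y) = φ x := by
  let B : UP T Q X n j →ₗ[T.W.K] Module.Dual T.W.K (UP T Q X n l) :=
    LinearMap.mk₂ T.W.K (fun x y => T.W.tr (pw X n) ((x : T.W.H (pw X n)) * y))
      (fun x x' y => by rw [Submodule.coe_add, add_mul, map_add])
      (fun c x y => by rw [Submodule.coe_smul, smul_mul_assoc, map_smul])
      (fun x y y' => by rw [Submodule.coe_add, mul_add, map_add])
      (fun c x y => by rw [Submodule.coe_smul, mul_smul_comm, map_smul])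
  have hB : Function.Injective B := by
    rw [injective_iff_map_eq_zero]
    intro x hx
    apply Subtype.ext
    refine uni_nondeg hQ hjl x.2 fun y hy => ?_
    exact congrArg (fun f => f ⟨y, hy⟩) hx
  obtain ⟨ψ, hψ⟩ := LinearMap.dualMap_surjective_of_injective hB φ
  obtain ⟨y, hy⟩ := (Module.evalEquiv T.W.K (UP T Q X n l)).surjective ψ
  refine ⟨y, y.2, fun x => ?_⟩
  rw [← hψ, ← hy]
  rfl

/-- If the Tate classes are the combinations of the universal classes, the pairing on the Tate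
classes is nondegenerate. -/
theorem tateNondeg_of (hQ : LeHodge T Q) (G : GaloisAction Q X)
    (h : G.TateAre (IsUniversal Q X)) (n : ℕ) : NondegOn G n := by
  intro j x hx hx0
  by_cases hj : j ≤ (pw X n).dim
  swap
  · exfalso
    apply hx0
    have h1 := hx.1
    rw [G.V.gr_eq_bot (pw X n) (2 * j) (by omega)] at h1
    exact (Submodule.mem_bot _).1 h1
  obtain ⟨l, hl⟩ : ∃ l, j + l = (pw X n).dim := ⟨_, Nat.add_sub_cancel' hj⟩
  by_contra hcon
  push Not at hcon
  have hc : ∀ y ∈ UP T Q X n l, G.V.tr (pw X n) (x * em T.W G.L y) = 0 := by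
    intro y hy
    exact hcon l _ ((mem_UP hQ).1 hy G)
  apply hx0
  have hx' := (h n j x).1 hx
  have hfin : Module.Finite T.W.K (UP T Q X n j) := inferInstance
  let e := Module.finBasis T.W.K (UP T Q X n j)
  obtain ⟨a, ha⟩ : ∃ a : Fin (finrank T.W.K (UP T Q X n j)) → G.V.K,
      x = ∑ i, a i • em T.W G.L (e i : T.W.H (pw X n)) := by
    have h1 : {y | ∃ c, IsUniversal Q X n j c ∧ ext T.W G.L c = y} ⊆
        (Submodule.span G.V.K (Set.range fun i => em T.W G.L (e i : T.W.H (pw X n))) :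
          Set (G.V.H (pw X n))) := by
      rintro _ ⟨c, hc', rfl⟩
      have h2 : c ∈ UP T Q X n j := (mem_UP hQ).2 hc'
      have h3 : c = ∑ i, e.repr ⟨c, h2⟩ i • (e i : T.W.H (pw X n)) := by
        have h4 : ((∑ i, e.repr ⟨c, h2⟩ i • e i : UP T Q X n j) : T.W.H (pw X n)) = c := by
          rw [e.sum_repr]
        rw [Submodule.coe_sum] at h4
        exact h4.symm
      have h5 : em T.W G.L c = ∑ i, (ex T.W G.L (e.repr ⟨c, h2⟩ i)) •
          em T.W G.L (e i : T.W.H (pw X n)) := by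
        conv_lhs => rw [h3]
        rw [em_sum]
        exact Finset.sum_congr rfl fun i _ => em_smul _ _
      change em T.W G.L c ∈ _
      rw [h5]
      exact Submodule.sum_mem _ fun i _ => Submodule.smul_mem _ _
        (Submodule.subset_span ⟨i, rfl⟩)
    have h2 := Submodule.span_le.2 h1 hx'
    obtain ⟨a, ha⟩ := (Submodule.mem_span_range_iff_exists_fun G.V.K).1 h2
    exact ⟨a, ha.symm⟩
  have ha0 : ∀ i, a i = 0 := by
    intro i
    obtain ⟨y, hy, hy'⟩ := exists_dual hQ hl (e.coord i)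
    have h1 := hc y hy
    rw [ha, Finset.sum_mul, map_sum] at h1
    have h2 : ∀ l, G.V.tr (pw X n) (a l • em T.W G.L (e l : T.W.H (pw X n)) * em T.W G.L y) =
        if l = i then a l else 0 := by
      intro l
      rw [smul_mul_assoc, map_smul, ← em_mul, em_tr, hy' (e l), Basis.coord_apply,
        Basis.repr_self, Finsupp.single_apply]
      split_ifs with hli
      · have h3 : ex T.W G.L (1 : T.W.K) = 1 := map_one (algebraMap T.W.K G.L)
        rw [h3, smul_eq_mul, mul_one]
      · have h3 : ex T.W G.L (0 : T.W.K) = 0 := map_zero (algebraMap T.W.K G.L)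
        rw [h3, smul_zero]
    rw [Finset.sum_congr rfl fun l _ => h2 l, Finset.sum_ite_eq' Finset.univ,
      if_pos (Finset.mem_univ _)] at h1
    exact h1
  rw [ha]
  exact Finset.sum_eq_zero fun i _ => by rw [ha0 i, zero_smul]

end Pool.Agent.D0H78.SS
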