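import Pool.Agent.D0H78.SS.Crit

/-!
# Nondegeneracy from the Hodge-Riemann relations, for one variety
-/

open CategoryTheory AlgebraicGeometry TensorProduct

universe u v

namespace Pool.Agent.D0H78.SS

open Module
open Pool.Agent.H914 Pool.Agent.H914.VarClass Pool.Agent.H914.VarClass.Obj
  Pool.Agent.H914.WeilCohomology Pool.Agent.Y133.Half Pool.Agent.D0H78.QT
open Pool.Agent.D0H78.MT (IsProj ext)

variable {k : Type u} [Field k] {𝒱 : VarClass k} {ops : CycleOps 𝒱}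

/-- Subspaces of the cohomology which are stable under a Lefschetz operator and the inverses of the
Lefschetz isomorphisms, with the Hodge-Riemann relations. -/
structure LocHR (W : WeilCohomology.{u, v} ops) [Algebra W.K ℝ] (Z : 𝒱.Obj)
    (P : ℕ → Submodule W.K (W.H Z)) (w : W.H Z) : Prop where
  gr : ∀ j, P j ≤ W.gr Z (2 * j)
  wgr : w ∈ W.gr Z (2 * 1)
  mul : ∀ j, ∀ x ∈ P j, w * x ∈ P (j + 1)
  lift : ∀ j, 2 * j ≤ Z.dim → ∀ v ∈ P (Z.dim - j), ∃ x ∈ P j, w ^ (Z.dim - 2 * j) * x = v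
  pos : ∀ j, 2 * j ≤ Z.dim → ∀ x ∈ P j, w ^ (Z.dim - 2 * j + 1) * x = 0 → x ≠ 0 →
    0 < (-1 : ℝ) ^ j * algebraMap W.K ℝ (W.tr Z (w ^ (Z.dim - 2 * j) * x * x))

namespace LocHR

variable {W : WeilCohomology.{u, v} ops} [Algebra W.K ℝ] {Z : 𝒱.Obj}
    {P : ℕ → Submodule W.K (W.H Z)} {w : W.H Z}

lemma pmul (h : LocHR W Z P w) (n : ℕ) {j : ℕ} {x : W.H Z} (hx : x ∈ P j) :
    w ^ n * x ∈ P (n + j) := by
  induction n with
  | zero => rw [pow_zero, one_mul, zero_add]; exact hx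
  | succ n ih =>
    rw [pow_succ', mul_assoc, show n + 1 + j = n + j + 1 by ring]
    exact h.mul _ _ ih

lemma decomp (h : LocHR W Z P w) {j : ℕ}
    (hj : 2 * (j + 1) ≤ Z.dim) {x : W.H Z} (hx : x ∈ P (j + 1)) :
    ∃ y ∈ P j, w ^ (Z.dim - 2 * (j + 1) + 1) * (x - w * y) = 0 := by
  have hv := h.pmul (Z.dim - 2 * (j + 1) + 1) hx
  rw [show Z.dim - 2 * (j + 1) + 1 + (j + 1) = Z.dim - j by omega] at hv
  obtain ⟨y, hy, hyv⟩ := h.lift j (by omega) _ hv
  refine ⟨y, hy, ?_⟩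
  rw [mul_sub, ← mul_assoc, ← pow_succ, sub_eq_zero, ← hyv]
  congr 2
  omega

/-- **The Hodge index theorem.** -/
lemma star (h : LocHR W Z P w) (j : ℕ) :
    2 * j ≤ Z.dim → ∀ x ∈ P j, ∃ x' ∈ P j, (x ≠ 0 →
      0 < (-1 : ℝ) ^ j * algebraMap W.K ℝ (W.tr Z (w ^ (Z.dim - 2 * j) * x * x'))) := by
  induction j with
  | zero =>
    intro hj x hx
    refine ⟨x, hx, h.pos 0 hj x hx ?_⟩
    have h1 := h.gr _ (h.pmul (Z.dim - 2 * 0 + 1) hx)
    rw [W.gr_eq_bot Z _ (by omega)] at h1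
    exact (Submodule.mem_bot _).1 h1
  | succ j ih =>
    intro hj x hx
    obtain ⟨y, hy, hprim⟩ := h.decomp hj hx
    obtain ⟨y', hy', hyy⟩ := ih (by omega) y hy
    obtain ⟨x₀, hx₀⟩ : ∃ x₀, x₀ = x - w * y := ⟨_, rfl⟩
    rw [← hx₀] at hprim
    have hwy : w * y ∈ P (j + 1) := h.mul j y hy
    have hwy' : w * y' ∈ P (j + 1) := h.mul j y' hy'
    have hx₀H : x₀ ∈ P (j + 1) := by rw [hx₀]; exact Submodule.sub_mem _ hx hwy
    refine ⟨x₀ - w * y', Submodule.sub_mem _ hx₀H hwy', fun hne => ?_⟩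
    set m := Z.dim - 2 * (j + 1) with hm
    have hwc : ∀ a, w * a = a * w := W.even_comm h.wgr
    have hx₀c : ∀ a, x₀ * a = a * x₀ := W.even_comm (h.gr _ hx₀H)
    have e1 : w ^ m * x * (x₀ - w * y') = w ^ m * x₀ * x₀ - w ^ (m + 2) * y * y' := by
      have h1 : x = x₀ + w * y := by rw [hx₀]; abel
      have h2 : w ^ m * x₀ * (w * y') = 0 := by
        rw [← mul_assoc, mul_assoc (w ^ m), ← hwc, ← mul_assoc, ← pow_succ, hprim, zero_mul]
      have h3 : w ^ m * (w * y) * x₀ = 0 := by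
        rw [← mul_assoc, ← pow_succ, mul_assoc, ← hx₀c, ← mul_assoc, hprim, zero_mul]
      have h4 : w ^ m * (w * y) * (w * y') = w ^ (m + 2) * y * y' := by
        rw [← mul_assoc (w ^ m * (w * y)), ← mul_assoc (w ^ m), mul_assoc (w ^ m * w) y w, ← hwc y,
          ← mul_assoc (w ^ m * w), ← pow_succ, ← pow_succ]
      have h5 : w ^ m * x * (x₀ - w * y') = w ^ m * (x₀ + w * y) * (x₀ - w * y') := by rw [← h1]
      rw [h5, mul_add, add_mul, mul_sub, mul_sub, h2, h3, h4]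
      abel
    have e2 : m + 2 = Z.dim - 2 * j := by omega
    rw [e1, e2, map_sub, map_sub, mul_sub, pow_succ]
    have e3 : (-1 : ℝ) ^ j * -1 * algebraMap W.K ℝ (W.tr Z (w ^ m * x₀ * x₀)) -
        (-1 : ℝ) ^ j * -1 * algebraMap W.K ℝ (W.tr Z (w ^ (Z.dim - 2 * j) * y * y')) =
        (-1 : ℝ) ^ (j + 1) * algebraMap W.K ℝ (W.tr Z (w ^ m * x₀ * x₀)) +
        (-1 : ℝ) ^ j * algebraMap W.K ℝ (W.tr Z (w ^ (Z.dim - 2 * j) * y * y')) := by
      rw [pow_succ]; ring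
    rw [e3]
    have hA : x₀ ≠ 0 → 0 < (-1 : ℝ) ^ (j + 1) *
        algebraMap W.K ℝ (W.tr Z (w ^ m * x₀ * x₀)) := fun h' => h.pos (j + 1) hj x₀ hx₀H hprim h'
    rcases eq_or_ne x₀ 0 with h0 | h0
    · rcases eq_or_ne y 0 with h1 | h1
      · exfalso
        apply hne
        have h2 : x = x₀ + w * y := by rw [hx₀]; abel
        rw [h2, h0, h1, mul_zero, add_zero]
      · have h2 := hyy h1
        rw [h0]
        simpa using h2
    · rcases eq_or_ne y 0 with h1 | h1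
      · have h2 := hA h0
        rw [h1]
        simpa using h2
      · exact add_pos (hA h0) (hyy h1)

/-- The intersection pairing on the classes is nondegenerate. -/
lemma nondeg (h : LocHR W Z P w) {j l : ℕ} (hjl : j + l = Z.dim) {x : W.H Z}
    (hx : x ∈ P j) (hP : ∀ y ∈ P l, W.tr Z (x * y) = 0) : x = 0 := by
  by_cases h2j : 2 * j ≤ Z.dim
  · by_contra hne
    obtain ⟨x', hx', hp⟩ := h.star j h2j x hx
    have h1 := hp hne
    have h2 : w ^ (Z.dim - 2 * j) * x' ∈ P l := by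
      have := h.pmul (Z.dim - 2 * j) hx'
      rwa [show Z.dim - 2 * j + j = l by omega] at this
    have h3 : w ^ (Z.dim - 2 * j) * x * x' = x * (w ^ (Z.dim - 2 * j) * x') := by
      rw [← W.even_comm (h.gr _ hx), mul_assoc]
    rw [h3, hP _ h2, map_zero, mul_zero] at h1
    exact lt_irrefl _ h1
  · have hj' : j = Z.dim - l := by omega
    subst hj'
    obtain ⟨x₁, hx₁, rfl⟩ := h.lift l (by omega) _ hx
    obtain ⟨x', hx', hp⟩ := h.star l (by omega) x₁ hx₁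
    by_cases hne : x₁ = 0
    · rw [hne, mul_zero]
    · have h1 := hp hne
      rw [hP _ hx', map_zero, mul_zero] at h1
      exact absurd h1 (lt_irrefl _)

end LocHR

end Pool.Agent.D0H78.SS
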